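import Pool.Agent.Lib.PspSplit.Parts

/-!
# Counting base 2 pseudoprimes of large order
-/

set_option autoImplicit false
open Finset

namespace PspSplit

open PspOrd

theorem root_le {a b : ℝ} {K : ℕ} (hK : 1 ≤ K) (ha : 0 ≤ a) (hb : 0 ≤ b) (h : a ^ K ≤ b ^ (K - 1)) :
    a ≤ b ^ (1 - 1 / (K : ℝ)) := by
  have hK0 : (0 : ℝ) < K := by exact_mod_cast hK
  have h1 : (a ^ K) ^ (1 / (K : ℝ)) ≤ (b ^ (K - 1)) ^ (1 / (K : ℝ)) :=
    Real.rpow_le_rpow (pow_nonneg ha _) h (by positivity)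
  rw [← Real.rpow_natCast a, ← Real.rpow_mul ha, ← Real.rpow_natCast b, ← Real.rpow_mul hb] at h1
  rw [mul_one_div_cancel hK0.ne', Real.rpow_one, Nat.cast_sub hK, Nat.cast_one] at h1
  have h2 : ((K : ℝ) - 1) * (1 / (K : ℝ)) = 1 - 1 / (K : ℝ) := by
    field_simp
  rwa [h2] at h1

theorem le_root {a b : ℝ} {K : ℕ} (hK : 1 ≤ K) (ha : 0 ≤ a) (hb : 0 ≤ b) (h : b ^ (K - 1) ≤ a ^ K) :
    b ^ (1 - 1 / (K : ℝ)) ≤ a := by
  have hK0 : (0 : ℝ) < K := by exact_mod_cast hK
  have h1 : (b ^ (K - 1)) ^ (1 / (K : ℝ)) ≤ (a ^ K) ^ (1 / (K : ℝ)) :=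
    Real.rpow_le_rpow (pow_nonneg hb _) h (by positivity)
  rw [← Real.rpow_natCast a, ← Real.rpow_mul ha, ← Real.rpow_natCast b, ← Real.rpow_mul hb] at h1
  rw [mul_one_div_cancel hK0.ne', Real.rpow_one, Nat.cast_sub hK, Nat.cast_one] at h1
  have h2 : ((K : ℝ) - 1) * (1 / (K : ℝ)) = 1 - 1 / (K : ℝ) := by
    field_simp
  rwa [h2] at h1

/-- One class. -/
theorem cls (x Y : ℝ) (hx : 0 ≤ x) (hY : 0 < Y) (g M : ℕ) (hg : 1 ≤ g) (T : Finset ℕ)
    (hT : ∀ n ∈ T, (n : ℝ) ≤ x ∧ g ∣ n ∧ n ≡ 1 [MOD M] ∧ Nat.Coprime g M ∧ Y ≤ (M : ℝ)) :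
    (T.card : ℝ) ≤ 1 + x / Y * (1 / (g : ℝ)) := by
  have hg0 : (0 : ℝ) < g := by exact_mod_cast hg
  rcases T.eq_empty_or_nonempty with h | ⟨n, hn⟩
  · rw [h, Finset.card_empty, Nat.cast_zero]
    positivity
  · obtain ⟨-, -, -, hc, hM⟩ := hT n hn
    have hM0 : (0 : ℝ) < M := lt_of_lt_of_le hY hM
    have hM1 : 1 ≤ M := by exact_mod_cast hM0
    refine (card_class_le hg hM1 hc x hx T (fun n hn => ⟨(hT n hn).1, (hT n hn).2.1, (hT n hn).2.2.1⟩)).trans ?_
    have h4 : x / ((g : ℝ) * (M : ℝ)) ≤ x / Y * (1 / (g : ℝ)) := by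
      rw [div_mul_div_comm, mul_one]
      apply div_le_div_of_nonneg_left hx (by positivity)
      rw [mul_comm]
      exact mul_le_mul_of_nonneg_left hM hg0.le
    linarith

theorem sum_inv_le' (x : ℝ) (hx : 1 ≤ x) (K : ℕ) (hK : (K : ℝ) ≤ x) :
    ∑ j ∈ Finset.Icc 1 K, (1 / (j : ℝ)) ≤ 1 + Real.log x := by
  refine le_trans ?_ (sum_inv_le x hx)
  apply Finset.sum_le_sum_of_subset_of_nonneg
  · intro f hf
    have hf' := Finset.mem_Icc.1 hf
    rw [Finset.mem_Icc]
    exact ⟨hf'.1, hf'.2.trans (Nat.le_floor hK)⟩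
  · intro i _ _
    positivity

/-- The sharp form: few pseudoprimes have a large order. -/
theorem sharp (k : ℕ) (x y : ℝ) (hk : 1 ≤ k) (hx : 1 ≤ x) (hy : 1 ≤ y) :
    (({n : ℕ | (n : ℝ) ≤ x ∧ Nat.FermatPsp n 2 ∧ y ≤ (orderOf (2 : ZMod n) : ℝ)}.ncard : ℕ) : ℝ) ≤
      2 * (1 + Real.log x) ^ 2 * (x ^ (1 - 1 / (2 * (k : ℝ) - 1)) + x / y ^ (1 - 1 / (k : ℝ))) := by
  classical
  have hx0 : (0 : ℝ) < x := by linarith
  have hy0 : (0 : ℝ) < y := by linarith
  have hlog : 0 ≤ Real.log x := Real.log_nonneg hx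
  set z : ℝ := x ^ (1 - 1 / (2 * (k : ℝ) - 1)) with hz
  set Y : ℝ := y ^ (1 - 1 / (k : ℝ)) with hYd
  have hk0 : (0 : ℝ) < k := by exact_mod_cast hk
  have hk1 : (1 : ℝ) ≤ k := by exact_mod_cast hk
  have hk2 : (0 : ℝ) < 2 * (k : ℝ) - 1 := by linarith
  have hz0 : 0 ≤ z := by positivity
  have hY0 : 0 < Y := by positivity
  have hzx : z ≤ x := by
    calc z ≤ x ^ (1 : ℝ) := Real.rpow_le_rpow_of_exponent_le hx (by
          have : 0 ≤ 1 / (2 * (k : ℝ) - 1) := by positivity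
          linarith)
      _ = x := Real.rpow_one x
  have hYy : Y ≤ y := by
    calc Y ≤ y ^ (1 : ℝ) := Real.rpow_le_rpow_of_exponent_le hy (by
          have : 0 ≤ 1 / (k : ℝ) := by positivity
          linarith)
      _ = y := Real.rpow_one y
  set N := ⌊x⌋₊ with hN
  set K := ⌊z⌋₊ with hKd
  have hKz : (K : ℝ) ≤ z := Nat.floor_le hz0
  have hKx : (K : ℝ) ≤ x := hKz.trans hzx
  set S : Finset ℕ := (Finset.Icc 1 N).filter (fun n => Nat.FermatPsp n 2 ∧ y ≤ (o n : ℝ)) with hS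
  have hset : {n : ℕ | (n : ℝ) ≤ x ∧ Nat.FermatPsp n 2 ∧ y ≤ (orderOf (2 : ZMod n) : ℝ)} = (S : Set ℕ) := by
    ext n
    simp only [Set.mem_ofPred_eq, hS, Finset.coe_filter, Finset.mem_Icc]
    constructor
    · rintro ⟨h1, h2, h3⟩
      exact ⟨⟨by have := h2.2.2; omega, Nat.le_floor h1⟩, h2, h3⟩
    · rintro ⟨⟨h1, h2⟩, h3, h4⟩
      exact ⟨(Nat.le_floor_iff hx0.le).1 h2, h3, h4⟩
  rw [hset, Set.ncard_coe_finset]
  set A : Finset ℕ := (Finset.Icc 1 K).biUnion (fun l => (Finset.Icc 1 (K / l)).biUnion (fun t =>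
    S.filter (fun n => (1 + l * t) ∣ n ∧ n ≡ 1 [MOD Nat.lcm l (o (1 + l * t))] ∧
      Nat.Coprime (1 + l * t) (Nat.lcm l (o (1 + l * t))) ∧ y ≤ (Nat.lcm l (o (1 + l * t)) : ℕ)))) with hA
  set B : Finset ℕ := (Finset.Icc 1 K).biUnion (fun g =>
    S.filter (fun n => g ∣ n ∧ n ≡ 1 [MOD o g] ∧ Nat.Coprime g (o g) ∧ Y ≤ (o g : ℝ))) with hB
  have hSx : ∀ n ∈ S, (n : ℝ) ≤ x := by
    intro n hn
    rw [hS, Finset.mem_filter, Finset.mem_Icc] at hn
    exact (Nat.le_floor_iff hx0.le).1 hn.1.2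
  -- real form of the size condition
  have hsize : ∀ g n : ℕ, (n : ℝ) ≤ x → g ^ (2 * k - 1) ≤ n ^ (2 * k - 1 - 1) → g ≤ K := by
    intro g n hnx hg
    apply Nat.le_floor
    have h1 : (g : ℝ) ^ (2 * k - 1) ≤ x ^ (2 * k - 1 - 1) := by
      have h2 : ((g ^ (2 * k - 1) : ℕ) : ℝ) ≤ ((n ^ (2 * k - 1 - 1) : ℕ) : ℝ) := by exact_mod_cast hg
      simp only [Nat.cast_pow] at h2
      exact h2.trans (pow_le_pow_left₀ (by positivity) hnx _)
    have h3 := root_le (K := 2 * k - 1) (by omega) (by positivity) hx0.le h1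
    rw [hz]
    rw [Nat.cast_sub (by omega : 1 ≤ 2 * k)] at h3
    simp only [Nat.cast_mul, Nat.cast_ofNat, Nat.cast_one] at h3
    exact h3
  have hsub : S ⊆ A ∪ B := by
    intro n hnS
    have hnx := hSx n hnS
    have hn := hnS
    rw [hS, Finset.mem_filter, Finset.mem_Icc] at hn
    obtain ⟨⟨hn1, hnN⟩, hpsp, hyo⟩ := hn
    rw [Finset.mem_union]
    by_cases hc : ∀ p, p.Prime → p ∣ n → p ^ (2 * k - 1) < n
    · right
      obtain ⟨g, hgn, hgs, hgo⟩ := caseB hpsp hk hc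
      rw [hB, Finset.mem_biUnion]
      have hg0 : 0 < g := Nat.pos_of_dvd_of_pos hgn hn1
      refine ⟨g, Finset.mem_Icc.2 ⟨hg0, hsize g n hnx hgs⟩, Finset.mem_filter.2
        ⟨hnS, hgn, modEq_o hpsp hgn, coprime_o hpsp hgn, ?_⟩⟩
      apply le_root hk (by positivity) hy0.le
      calc y ^ (k - 1) ≤ (o n : ℝ) ^ (k - 1) := pow_le_pow_left₀ hy0.le hyo _
        _ ≤ (o g : ℝ) ^ k := by exact_mod_cast hgo
    · left
      push Not at hc
      obtain ⟨p, hp, hpn, hpk⟩ := hc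
      obtain ⟨l, t, hl, ht, hd, hs, hm, ho, hcop⟩ := caseA hpsp (by omega) hp hpn hpk
      have hltK : l * t ≤ K := hsize (l * t) n hnx hs
      rw [hA, Finset.mem_biUnion]
      refine ⟨l, Finset.mem_Icc.2 ⟨hl, le_trans (Nat.le_mul_of_pos_right l ht) hltK⟩, ?_⟩
      rw [Finset.mem_biUnion]
      refine ⟨t, Finset.mem_Icc.2 ⟨ht, ?_⟩, Finset.mem_filter.2 ⟨hnS, hd, hm, hcop, ?_⟩⟩
      · rw [Nat.le_div_iff_mul_le hl, mul_comm]; exact hltK
      · refine hyo.trans ?_
        exact_mod_cast ho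
  have hBcard : (B.card : ℝ) ≤ z + x / Y * (1 + Real.log x) := by
    have h1 : (B.card : ℝ) ≤ ∑ g ∈ Finset.Icc 1 K, (1 + x / Y * (1 / (g : ℝ))) := by
      have h2 : (B.card : ℝ) ≤ ((∑ g ∈ Finset.Icc 1 K, (S.filter (fun n => g ∣ n ∧ n ≡ 1 [MOD o g] ∧
          Nat.Coprime g (o g) ∧ Y ≤ (o g : ℝ))).card : ℕ) : ℝ) := by
        exact_mod_cast Finset.card_biUnion_le
      refine h2.trans ?_
      push_cast
      apply Finset.sum_le_sum
      intro g hg
      rw [Finset.mem_Icc] at hg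
      apply cls x Y hx0.le hY0 g (o g) hg.1
      intro n hn
      rw [Finset.mem_filter] at hn
      exact ⟨hSx n hn.1, hn.2⟩
    rw [Finset.sum_add_distrib, Finset.sum_const, nsmul_eq_mul, mul_one, ← Finset.mul_sum,
      Nat.card_Icc, Nat.add_sub_cancel] at h1
    have h3 : x / Y * ∑ g ∈ Finset.Icc 1 K, (1 / (g : ℝ)) ≤ x / Y * (1 + Real.log x) :=
      mul_le_mul_of_nonneg_left (sum_inv_le' x hx K hKx) (by positivity)
    linarith
  have hAcard : (A.card : ℝ) ≤ z * (1 + Real.log x) + x / y * (1 + Real.log x) ^ 2 := by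
    have h1 : (A.card : ℝ) ≤ ∑ l ∈ Finset.Icc 1 K, (z * (1 / (l : ℝ)) + x / y * (1 + Real.log x) * (1 / (l : ℝ))) := by
      have h2 : (A.card : ℝ) ≤ ((∑ l ∈ Finset.Icc 1 K, ((Finset.Icc 1 (K / l)).biUnion (fun t =>
          S.filter (fun n => (1 + l * t) ∣ n ∧ n ≡ 1 [MOD Nat.lcm l (o (1 + l * t))] ∧
          Nat.Coprime (1 + l * t) (Nat.lcm l (o (1 + l * t))) ∧
          y ≤ (Nat.lcm l (o (1 + l * t)) : ℕ)))).card : ℕ) : ℝ) := by
        exact_mod_cast Finset.card_biUnion_le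
      refine h2.trans ?_
      push_cast
      apply Finset.sum_le_sum
      intro l hl
      rw [Finset.mem_Icc] at hl
      have hl0 : (0 : ℝ) < l := by exact_mod_cast hl.1
      have h3 : ((((Finset.Icc 1 (K / l)).biUnion (fun t =>
          S.filter (fun n => (1 + l * t) ∣ n ∧ n ≡ 1 [MOD Nat.lcm l (o (1 + l * t))] ∧
          Nat.Coprime (1 + l * t) (Nat.lcm l (o (1 + l * t))) ∧
          y ≤ (Nat.lcm l (o (1 + l * t)) : ℕ)))).card : ℕ) : ℝ) ≤
          ∑ t ∈ Finset.Icc 1 (K / l), (1 + x / y * (1 / (l : ℝ)) * (1 / (t : ℝ))) := by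
        refine le_trans (b := ((∑ t ∈ Finset.Icc 1 (K / l), (S.filter (fun n => (1 + l * t) ∣ n ∧
          n ≡ 1 [MOD Nat.lcm l (o (1 + l * t))] ∧
          Nat.Coprime (1 + l * t) (Nat.lcm l (o (1 + l * t))) ∧
          y ≤ (Nat.lcm l (o (1 + l * t)) : ℕ))).card : ℕ) : ℝ)) ?_ ?_
        · exact_mod_cast Finset.card_biUnion_le
        push_cast
        apply Finset.sum_le_sum
        intro t ht
        rw [Finset.mem_Icc] at ht
        have ht0 : (0 : ℝ) < t := by exact_mod_cast ht.1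
        refine (cls x y hx0.le hy0 (1 + l * t) (Nat.lcm l (o (1 + l * t))) (by omega) _ ?_).trans ?_
        · intro n hn
          rw [Finset.mem_filter] at hn
          exact ⟨hSx n hn.1, hn.2⟩
        · have h5 : 1 / (((1 + l * t : ℕ)) : ℝ) ≤ 1 / (l : ℝ) * (1 / (t : ℝ)) := by
            rw [one_div_mul_one_div]
            apply one_div_le_one_div_of_le (by positivity)
            push_cast
            linarith
          have h6 : x / y * (1 / (((1 + l * t : ℕ)) : ℝ)) ≤ x / y * (1 / (l : ℝ) * (1 / (t : ℝ))) :=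
            mul_le_mul_of_nonneg_left h5 (by positivity)
          have h7 : x / y * (1 / (l : ℝ) * (1 / (t : ℝ))) = x / y * (1 / (l : ℝ)) * (1 / (t : ℝ)) := by ring
          linarith
      refine h3.trans ?_
      rw [Finset.sum_add_distrib, Finset.sum_const, nsmul_eq_mul, mul_one, ← Finset.mul_sum,
        Nat.card_Icc, Nat.add_sub_cancel]
      have h8 : ((K / l : ℕ) : ℝ) ≤ z * (1 / (l : ℝ)) := by
        calc ((K / l : ℕ) : ℝ) ≤ (K : ℝ) / l := Nat.cast_div_le
          _ ≤ z / l := div_le_div_of_nonneg_right hKz hl0.le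
          _ = z * (1 / (l : ℝ)) := by ring
      have h9 : ((K / l : ℕ) : ℝ) ≤ x := by
        refine le_trans ?_ hKx
        exact_mod_cast Nat.div_le_self _ _
      have h10 : x / y * (1 / (l : ℝ)) * ∑ t ∈ Finset.Icc 1 (K / l), (1 / (t : ℝ)) ≤
          x / y * (1 / (l : ℝ)) * (1 + Real.log x) :=
        mul_le_mul_of_nonneg_left (sum_inv_le' x hx _ h9) (by positivity)
      have h11 : x / y * (1 / (l : ℝ)) * (1 + Real.log x) = x / y * (1 + Real.log x) * (1 / (l : ℝ)) := by ring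
      linarith
    have h4 : ∑ l ∈ Finset.Icc 1 K, (z * (1 / (l : ℝ)) + x / y * (1 + Real.log x) * (1 / (l : ℝ))) =
        (z + x / y * (1 + Real.log x)) * ∑ l ∈ Finset.Icc 1 K, (1 / (l : ℝ)) := by
      rw [Finset.mul_sum]
      apply Finset.sum_congr rfl
      intro l _
      ring
    rw [h4] at h1
    have h5 : (z + x / y * (1 + Real.log x)) * ∑ l ∈ Finset.Icc 1 K, (1 / (l : ℝ)) ≤
        (z + x / y * (1 + Real.log x)) * (1 + Real.log x) :=
      mul_le_mul_of_nonneg_left (sum_inv_le' x hx K hKx) (by positivity)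
    have h6 : (z + x / y * (1 + Real.log x)) * (1 + Real.log x) =
        z * (1 + Real.log x) + x / y * (1 + Real.log x) ^ 2 := by ring
    linarith
  have hcard : (S.card : ℝ) ≤ (A.card : ℝ) + B.card := by
    have : S.card ≤ A.card + B.card := (Finset.card_le_card hsub).trans (Finset.card_union_le _ _)
    exact_mod_cast this
  set G : ℝ := 1 + Real.log x with hG
  have hG1 : 1 ≤ G := by linarith
  have hG2 : G ≤ G ^ 2 := by nlinarith
  have hG3 : 1 ≤ G ^ 2 := hG1.trans hG2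
  have hxY : x / y ≤ x / Y := div_le_div_of_nonneg_left hx0.le hY0 hYy
  have hxY0 : 0 ≤ x / Y := by positivity
  have t1 : z * G ≤ z * G ^ 2 := mul_le_mul_of_nonneg_left hG2 hz0
  have t2 : z ≤ z * G ^ 2 := le_mul_of_one_le_right hz0 hG3
  have t3 : x / y * G ^ 2 ≤ x / Y * G ^ 2 := mul_le_mul_of_nonneg_right hxY (by positivity)
  have t4 : x / Y * G ≤ x / Y * G ^ 2 := mul_le_mul_of_nonneg_left hG2 hxY0
  have t5 : 2 * G ^ 2 * (z + x / Y) = 2 * (z * G ^ 2) + 2 * (x / Y * G ^ 2) := by ring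
  rw [t5]
  linarith

/-- The form without `k`. -/
theorem uniform (x y : ℝ) (hx : 1 < x) (hy : 1 ≤ y) :
    (({n : ℕ | (n : ℝ) ≤ x ∧ Nat.FermatPsp n 2 ∧ y ≤ (orderOf (2 : ZMod n) : ℝ)}.ncard : ℕ) : ℝ) ≤
      4 * (1 + Real.log x) ^ 2 * (x / y) * Real.exp (2 * Real.log y ^ 2 / Real.log x) := by
  have hx0 : (0 : ℝ) < x := by linarith
  have hy0 : (0 : ℝ) < y := by linarith
  have hlx : 0 < Real.log x := Real.log_pos hx
  have hly : 0 ≤ Real.log y := Real.log_nonneg hy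
  rcases hly.eq_or_lt with h0 | h0
  · -- `y = 1`
    have hy1 : y = 1 := by
      have := Real.exp_log hy0
      rw [← h0, Real.exp_zero] at this
      exact this.symm
    have h1 := sharp 1 x y le_rfl hx.le hy
    refine h1.trans ?_
    rw [hy1]
    norm_num
    nlinarith [sq_nonneg (1 + Real.log x)]
  · set k : ℕ := ⌈Real.log x / (2 * Real.log y)⌉₊ with hk
    have hr0 : 0 < Real.log x / (2 * Real.log y) := by positivity
    have hk1 : 1 ≤ k := Nat.ceil_pos.2 hr0
    have hk0 : (0 : ℝ) < k := by exact_mod_cast hk1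
    have hkl : Real.log x / (2 * Real.log y) ≤ k := Nat.le_ceil _
    have hku : (k : ℝ) < Real.log x / (2 * Real.log y) + 1 := Nat.ceil_lt_add_one hr0.le
    have hkl' : Real.log x ≤ k * (2 * Real.log y) := by
      rwa [div_le_iff₀ (by positivity)] at hkl
    have hku' : (k : ℝ) * (2 * Real.log y) < Real.log x + 2 * Real.log y := by
      have := mul_lt_mul_of_pos_right hku (show (0 : ℝ) < 2 * Real.log y by positivity)
      rw [add_mul, div_mul_cancel₀ _ (by positivity), one_mul] at this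
      exact this
    have hk1' : (1 : ℝ) ≤ k := by exact_mod_cast hk1
    have h1 : (({n : ℕ | (n : ℝ) ≤ x ∧ Nat.FermatPsp n 2 ∧ y ≤ (orderOf (2 : ZMod n) : ℝ)}.ncard : ℕ) : ℝ) ≤
        2 * (1 + Real.log x) ^ 2 * (x ^ (1 - 1 / (2 * (k : ℝ))) + x / y ^ (1 - 1 / (k : ℝ))) := by
      refine (sharp k x y hk1 hx.le hy).trans ?_
      apply mul_le_mul_of_nonneg_left _ (by positivity)
      apply add_le_add _ le_rfl
      apply Real.rpow_le_rpow_of_exponent_le hx.le
      have : 1 / (2 * (k : ℝ)) ≤ 1 / (2 * (k : ℝ) - 1) :=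
        one_div_le_one_div_of_le (by linarith) (by linarith)
      linarith
    set E : ℝ := 2 * Real.log y ^ 2 / Real.log x with hE
    have hx1 : x ^ (1 - 1 / (2 * (k : ℝ))) ≤ x / y * Real.exp E := by
      have e1 : x ^ (1 - 1 / (2 * (k : ℝ))) = Real.exp (Real.log x * (1 - 1 / (2 * (k : ℝ)))) :=
        Real.rpow_def_of_pos hx0 _
      have e2 : x / y * Real.exp E = Real.exp (Real.log x - Real.log y + E) := by
        rw [Real.exp_add, Real.exp_sub, Real.exp_log hx0, Real.exp_log hy0]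
      rw [e1, e2, Real.exp_le_exp]
      -- `log y ≤ log x / (2 k) + E`
      have e3 : Real.log y ≤ Real.log x / (2 * (k : ℝ)) + E := by
        have e4 : Real.log y - E ≤ Real.log x / (2 * (k : ℝ)) := by
          rw [le_div_iff₀ (by positivity)]
          have e5 : Real.log y - E = Real.log y * (Real.log x - 2 * Real.log y) / Real.log x := by
            rw [hE]; field_simp
          rw [e5, div_mul_eq_mul_div, div_le_iff₀ hlx]
          rcases le_total (Real.log x) (2 * Real.log y) with h | h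
          · have : Real.log y * (Real.log x - 2 * Real.log y) ≤ 0 :=
              mul_nonpos_of_nonneg_of_nonpos hly (by linarith)
            have h' : Real.log y * (Real.log x - 2 * Real.log y) * (2 * (k : ℝ)) ≤ 0 :=
              mul_nonpos_of_nonpos_of_nonneg this (by positivity)
            have h'' : 0 ≤ Real.log x * Real.log x := by positivity
            linarith
          · have h' : Real.log y * (Real.log x - 2 * Real.log y) * (2 * (k : ℝ)) =
                ((k : ℝ) * (2 * Real.log y)) * (Real.log x - 2 * Real.log y) := by ring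
            rw [h']
            calc ((k : ℝ) * (2 * Real.log y)) * (Real.log x - 2 * Real.log y) ≤
                (Real.log x + 2 * Real.log y) * (Real.log x - 2 * Real.log y) :=
                  mul_le_mul_of_nonneg_right hku'.le (by linarith)
              _ = Real.log x * Real.log x - 4 * (Real.log y) ^ 2 := by ring
              _ ≤ Real.log x * Real.log x := by nlinarith [sq_nonneg (Real.log y)]
        linarith
      have e6 : Real.log x * (1 - 1 / (2 * (k : ℝ))) = Real.log x - Real.log x / (2 * (k : ℝ)) := by ring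
      rw [e6]
      linarith
    have hx2 : x / y ^ (1 - 1 / (k : ℝ)) ≤ x / y * Real.exp E := by
      have e1 : y ^ (1 - 1 / (k : ℝ)) = Real.exp (Real.log y * (1 - 1 / (k : ℝ))) :=
        Real.rpow_def_of_pos hy0 _
      have e2 : x / y * Real.exp E = Real.exp (Real.log x - Real.log y + E) := by
        rw [Real.exp_add, Real.exp_sub, Real.exp_log hx0, Real.exp_log hy0]
      have e3 : x / y ^ (1 - 1 / (k : ℝ)) = Real.exp (Real.log x - Real.log y * (1 - 1 / (k : ℝ))) := by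
        rw [e1, Real.exp_sub, Real.exp_log hx0]
      rw [e3, e2, Real.exp_le_exp]
      have e4 : Real.log y / (k : ℝ) ≤ E := by
        rw [hE, div_le_div_iff₀ hk0 hlx]
        calc Real.log y * Real.log x ≤ Real.log y * (k * (2 * Real.log y)) :=
              mul_le_mul_of_nonneg_left hkl' hly
          _ = 2 * Real.log y ^ 2 * k := by ring
      have e5 : Real.log y * (1 - 1 / (k : ℝ)) = Real.log y - Real.log y / (k : ℝ) := by ring
      rw [e5]
      linarith
    calc _ ≤ 2 * (1 + Real.log x) ^ 2 * (x ^ (1 - 1 / (2 * (k : ℝ))) + x / y ^ (1 - 1 / (k : ℝ))) := h1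
      _ ≤ 2 * (1 + Real.log x) ^ 2 * (x / y * Real.exp E + x / y * Real.exp E) := by
          apply mul_le_mul_of_nonneg_left (add_le_add hx1 hx2) (by positivity)
      _ = 4 * (1 + Real.log x) ^ 2 * (x / y) * Real.exp E := by ring

end PspSplit
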