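import Pool.Agent.Lib.PspOrd.S1

/-!
# Splitting a base 2 pseudoprime into many parts
-/

set_option autoImplicit false
open Finset

namespace PspSplit

open PspOrd

/-- The greedy splitting, in an abstract form. -/
theorem parts (N r n : ℕ) (hN : 1 < N) (hn : 0 < n) (Q : ℕ → ℕ)
    (hQ : ∀ a b, a * b ∣ n → Q a * Q b ≤ Q (a * b))
    (hp : ∀ p, p.Prime → p ∣ n → p ^ r < N) :
    ∀ j m, m ∣ n → N ^ (2 * j + 1) ≤ m ^ r → ∃ d, d ∣ n ∧ N ≤ d ^ r ∧ Q d ^ (j + 1) ≤ Q m := by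
  intro j
  induction j with
  | zero =>
    intro m hm hmk
    exact ⟨m, hm, by simpa using hmk, by simp⟩
  | succ j ih =>
    intro m hm hmk
    have hm0 : 0 < m := Nat.pos_of_dvd_of_pos hm hn
    have hNm : N ≤ m ^ r := by
      calc N ≤ N ^ (2 * (j + 1) + 1) := Nat.le_self_pow (by omega) N
        _ ≤ m ^ r := hmk
    have hex : ∃ d, d ∣ m ∧ N ≤ d ^ r := ⟨m, dvd_rfl, hNm⟩
    obtain ⟨hd, hdN⟩ := Nat.find_spec hex
    have hmin : ∀ d', d' ∣ m → N ≤ d' ^ r → Nat.find hex ≤ d' := fun d' h1 h2 =>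
      Nat.find_min' hex ⟨h1, h2⟩
    set d := Nat.find hex with hdd
    clear_value d
    have hd1 : d ≠ 1 := by
      intro h
      rw [h, one_pow] at hdN
      omega
    have hd0 : 0 < d := Nat.pos_of_dvd_of_pos hd hm0
    obtain ⟨p, hpp, c, hc⟩ := Nat.exists_prime_and_dvd hd1
    have hcd : c ∣ m := (Dvd.intro_left p hc.symm).trans hd
    have hc0 : 0 < c := Nat.pos_of_dvd_of_pos hcd hm0
    have hclt : c < d := by
      rw [hc]; have := hpp.two_le; nlinarith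
    have hcN : c ^ r < N := by
      by_contra h
      push Not at h
      have := hmin c hcd h
      omega
    have hpN : p ^ r < N := hp p hpp (((Dvd.intro c hc.symm).trans hd).trans hm)
    have hdk : d ^ r < N * N := by
      rw [hc, mul_pow]; exact Nat.mul_lt_mul'' hpN hcN
    obtain ⟨m', hm'⟩ := hd
    have hm'd : m' ∣ n := (Dvd.intro_left d hm'.symm).trans hm
    have hm'0 : 0 < m' := Nat.pos_of_dvd_of_pos hm'd hn
    have hm'k : N ^ (2 * j + 1) ≤ m' ^ r := by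
      by_contra h
      push Not at h
      have h1 : d ^ r * m' ^ r < N * N * N ^ (2 * j + 1) := Nat.mul_lt_mul'' hdk h
      have h2 : N * N * N ^ (2 * j + 1) = N ^ (2 * (j + 1) + 1) := by ring
      rw [← mul_pow, ← hm', h2] at h1
      omega
    obtain ⟨e, he, heN, heQ⟩ := ih m' hm'd hm'k
    have hQm : Q d * Q m' ≤ Q m := by
      have := hQ d m' (hm' ▸ hm)
      rwa [← hm'] at this
    rcases le_total (Q d) (Q e) with h | h
    · refine ⟨d, (Dvd.intro m' hm'.symm).trans hm, hdN, ?_⟩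
      calc Q d ^ (j + 1 + 1) = Q d * Q d ^ (j + 1) := pow_succ' _ _
        _ ≤ Q d * Q e ^ (j + 1) := Nat.mul_le_mul_left _ (Nat.pow_le_pow_left h _)
        _ ≤ Q d * Q m' := Nat.mul_le_mul_left _ heQ
        _ ≤ Q m := hQm
    · refine ⟨e, he, heN, ?_⟩
      calc Q e ^ (j + 1 + 1) = Q e * Q e ^ (j + 1) := pow_succ' _ _
        _ ≤ Q d * Q e ^ (j + 1) := Nat.mul_le_mul_right _ h
        _ ≤ Q d * Q m' := Nat.mul_le_mul_left _ heQ
        _ ≤ Q m := hQm

theorem o_dvd_o {d e : ℕ} (h : d ∣ e) : o d ∣ o e := by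
  apply orderOf_dvd_of_pow_eq_one
  have h1 : d ∣ 2 ^ o e - 1 := h.trans (dvd_two_pow_o e)
  have h2 : ((2 ^ o e - 1 : ℕ) : ZMod d) = 0 := (ZMod.natCast_eq_zero_iff _ _).2 h1
  rw [Nat.cast_sub Nat.one_le_two_pow] at h2
  push_cast at h2
  exact sub_eq_zero.1 h2

/-- The parts of the order that are due to complementary divisors are coprime. -/
theorem quot_mul {n : ℕ} (hn : Nat.FermatPsp n 2) (a b : ℕ) (hab : a * b ∣ n) :
    (o n / o (n / a)) * (o n / o (n / b)) ≤ o n / o (n / (a * b)) := by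
  obtain ⟨c, hc⟩ := hab
  have hn1 : 1 < n := hn.2.2
  have habc : 0 < a * b * c := by rw [← hc]; omega
  have hab0 : 0 < a * b := Nat.pos_of_mul_pos_right habc
  have hc0 : 0 < c := Nat.pos_of_mul_pos_left habc
  have ha0 : 0 < a := Nat.pos_of_mul_pos_right hab0
  have hb0 : 0 < b := Nat.pos_of_mul_pos_left hab0
  have e1 : n / a = b * c := by
    rw [hc, mul_assoc]; exact Nat.mul_div_cancel_left _ ha0
  have e2 : n / b = a * c := by
    rw [hc, mul_comm a b, mul_assoc]; exact Nat.mul_div_cancel_left _ hb0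
  have e3 : n / (a * b) = c := by
    rw [hc]; exact Nat.mul_div_cancel_left _ hab0
  rw [e1, e2, e3]
  have hbcn : b * c ∣ n := ⟨a, by rw [hc]; ring⟩
  have hacn : a * c ∣ n := ⟨b, by rw [hc]; ring⟩
  have hcn : c ∣ n := ⟨a * b, by rw [hc]; ring⟩
  have hL : 0 < o n := o_pos hn dvd_rfl
  have d1 : o (b * c) ∣ o n := o_dvd_o hbcn
  have d2 : o (a * c) ∣ o n := o_dvd_o hacn
  have d3 : o c ∣ o (b * c) := o_dvd_o (Dvd.intro_left b rfl)
  have d4 : o c ∣ o (a * c) := o_dvd_o (Dvd.intro_left a rfl)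
  have hl : o n ∣ Nat.lcm (o (b * c)) (o (a * c)) := by
    have h1 : o n ∣ Nat.lcm (o a) (o (b * c)) := o_mul_dvd hn (by rw [hc]; ring)
    refine h1.trans (Nat.lcm_dvd ?_ (Nat.dvd_lcm_left _ _))
    exact (o_dvd_o (Dvd.intro c rfl)).trans (Nat.dvd_lcm_right _ _)
  obtain ⟨u, hu⟩ := d1
  obtain ⟨v, hv⟩ := d2
  have p1 : 0 < o (b * c) := Nat.pos_of_dvd_of_pos ⟨u, hu⟩ hL
  have p2 : 0 < o (a * c) := Nat.pos_of_dvd_of_pos ⟨v, hv⟩ hL
  have q1 : o n / o (b * c) = u := by rw [hu]; exact Nat.mul_div_cancel_left _ p1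
  have q2 : o n / o (a * c) = v := by rw [hv]; exact Nat.mul_div_cancel_left _ p2
  have p3 : 0 < o c := Nat.pos_of_dvd_of_pos d3 p1
  have cop : Nat.Coprime u v := by
    set g := Nat.gcd u v with hg
    have hgu : g ∣ u := Nat.gcd_dvd_left _ _
    have hgv : g ∣ v := Nat.gcd_dvd_right _ _
    have hu0 : 0 < u := by
      rcases Nat.eq_zero_or_pos u with h | h
      · rw [h, mul_zero] at hu; omega
      · exact h
    have hg0 : 0 < g := Nat.pos_of_dvd_of_pos hgu hu0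
    obtain ⟨u', hu'⟩ := hgu
    obtain ⟨v', hv'⟩ := hgv
    have k1 : o n = g * (o (b * c) * u') := by rw [hu, hu']; ring
    have k2 : o n = g * (o (a * c) * v') := by rw [hv, hv']; ring
    have k3 : o (b * c) * u' = o (a * c) * v' := by
      have := k1.symm.trans k2
      exact Nat.eq_of_mul_eq_mul_left hg0 this
    have k4 : Nat.lcm (o (b * c)) (o (a * c)) ∣ o (b * c) * u' :=
      Nat.lcm_dvd (Dvd.intro _ rfl) (k3 ▸ Dvd.intro _ rfl)
    have k5 : o n ∣ o (b * c) * u' := hl.trans k4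
    have k6 : 0 < o (b * c) * u' := by
      rcases Nat.eq_zero_or_pos (o (b * c) * u') with h | h
      · rw [h, mul_zero] at k1; omega
      · exact h
    have k7 : o n ≤ o (b * c) * u' := Nat.le_of_dvd k6 k5
    have k8 : g ≤ 1 := by
      by_contra h
      push Not at h
      rw [k1] at k7
      nlinarith
    have k9 : g = 1 := by omega
    exact k9
  have r1 : u ∣ o n / o c := by
    obtain ⟨w, hw⟩ := d3
    refine ⟨w, ?_⟩
    rw [hu, hw, mul_assoc, Nat.mul_div_cancel_left _ p3, mul_comm]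
  have r2 : v ∣ o n / o c := by
    obtain ⟨w, hw⟩ := d4
    refine ⟨w, ?_⟩
    rw [hv, hw, mul_assoc, Nat.mul_div_cancel_left _ p3, mul_comm]
  rw [q1, q2]
  apply Nat.le_of_dvd
  · exact Nat.div_pos (Nat.le_of_dvd hL (d3.trans ⟨u, hu⟩)) p3
  · exact cop.mul_dvd_of_dvd_of_dvd r1 r2

theorem compl_pow {n d r : ℕ} (hn : 0 < n) (hr : 1 ≤ r) (hd : d ∣ n) (h : n ≤ d ^ r) :
    (n / d) ^ r ≤ n ^ (r - 1) := by
  have h1 : (n / d) ^ r * n ≤ n ^ r := by
    calc (n / d) ^ r * n ≤ (n / d) ^ r * d ^ r := Nat.mul_le_mul_left _ h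
      _ = n ^ r := by rw [← mul_pow, Nat.div_mul_cancel hd]
  have h2 : n ^ r = n ^ (r - 1) * n := by
    rw [← pow_succ]; congr 1; omega
  rw [h2] at h1
  exact Nat.le_of_mul_le_mul_right h1 hn

/-- All prime factors are small. -/
theorem caseB {n k : ℕ} (hn : Nat.FermatPsp n 2) (hk : 1 ≤ k)
    (hp : ∀ p, p.Prime → p ∣ n → p ^ (2 * k - 1) < n) :
    ∃ g, g ∣ n ∧ g ^ (2 * k - 1) ≤ n ^ (2 * k - 1 - 1) ∧ o n ^ (k - 1) ≤ o g ^ k := by
  have hn1 : 1 < n := hn.2.2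
  obtain ⟨d, hd, hdN, hdQ⟩ := parts n (2 * k - 1) n hn1 (by omega)
    (fun d => o n / o (n / d)) (fun a b h => quot_mul hn a b h) hp (k - 1) n dvd_rfl
    (by rw [show 2 * (k - 1) + 1 = 2 * k - 1 by omega])
  rw [show k - 1 + 1 = k by omega] at hdQ
  refine ⟨n / d, Nat.div_dvd_of_dvd hd, compl_pow (by omega) (by omega) hd hdN, ?_⟩
  have hgd : n / d ∣ n := Nat.div_dvd_of_dvd hd
  have hog : o (n / d) ∣ o n := o_dvd_o hgd
  have hL : 0 < o n := o_pos hn dvd_rfl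
  have h2 : (o n / o (n / d)) ^ k ≤ o n := hdQ.trans (Nat.div_le_self _ _)
  have h3 : o n ^ k ≤ o n * o (n / d) ^ k := by
    calc o n ^ k = ((o n / o (n / d)) * o (n / d)) ^ k := by rw [Nat.div_mul_cancel hog]
      _ = (o n / o (n / d)) ^ k * o (n / d) ^ k := mul_pow _ _ _
      _ ≤ o n * o (n / d) ^ k := Nat.mul_le_mul_right _ h2
  have h4 : o n ^ k = o n * o n ^ (k - 1) := by
    rw [← pow_succ']; congr 1; omega
  rw [h4] at h3
  exact Nat.le_of_mul_le_mul_left h3 hL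

/-- There is a large prime factor. -/
theorem caseA {n r p : ℕ} (hn : Nat.FermatPsp n 2) (hr : 1 ≤ r) (hp : p.Prime) (hpn : p ∣ n)
    (hpk : n ≤ p ^ r) :
    ∃ l t, 1 ≤ l ∧ 1 ≤ t ∧ (1 + l * t) ∣ n ∧ (l * t) ^ r ≤ n ^ (r - 1) ∧
      n ≡ 1 [MOD Nat.lcm l (o (1 + l * t))] ∧ o n ≤ Nat.lcm l (o (1 + l * t)) ∧
      Nat.Coprime (1 + l * t) (Nat.lcm l (o (1 + l * t))) := by
  have hn1 : 1 < n := hn.2.2
  have hodd : Nat.Coprime 2 p := by
    have h1 : Nat.Coprime n 2 := Nat.coprime_of_probablePrime hn.1 (by omega) (by norm_num)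
    exact (Nat.Coprime.coprime_dvd_left hpn h1).symm
  have hpo : p ≡ 1 [MOD o p] := primePow_modEq hp.isPrimePow hodd (coprime_o hn hpn)
  set g := n / p with hg
  have hng : n = p * g := (Nat.mul_div_cancel' hpn).symm
  have hgn : g ∣ n := Nat.div_dvd_of_dvd hpn
  have hg0 : 0 < g := Nat.pos_of_dvd_of_pos hgn (by omega)
  have hg1 : g ≠ 1 := by
    intro h
    rw [h, mul_one] at hng
    exact hn.2.1 (hng ▸ hp)
  have hgo : g ≡ 1 [MOD o p] := by
    have h1 : n ≡ 1 [MOD o p] := modEq_o hn hpn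
    rw [hng] at h1
    have h2 : p * g ≡ 1 * g [MOD o p] := hpo.mul_right g
    rw [one_mul] at h2
    exact h2.symm.trans h1
  have hlt : o p ∣ g - 1 := (Nat.modEq_iff_dvd' hg0).1 hgo.symm
  obtain ⟨t, ht⟩ := hlt
  have hop : 0 < o p := o_pos hn hpn
  have ht0 : 0 < t := by
    rcases Nat.eq_zero_or_pos t with h | h
    · rw [h, mul_zero] at ht; omega
    · exact h
  have hgt : 1 + o p * t = g := by rw [← ht]; omega
  have hgpow : g ^ r ≤ n ^ (r - 1) := compl_pow (by omega) hr hpn hpk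
  have hlcm : Nat.lcm (o p) (o g) ∣ n - 1 := Nat.lcm_dvd (o_dvd hn hpn) (o_dvd hn hgn)
  refine ⟨o p, t, hop, ht0, ?_, ?_, ?_, ?_, ?_⟩
  · rw [hgt]; exact hgn
  · refine le_trans (Nat.pow_le_pow_left ?_ _) hgpow
    omega
  · rw [hgt]
    exact ((Nat.modEq_iff_dvd' hn1.le).2 hlcm).symm
  · rw [hgt]
    apply Nat.le_of_dvd (Nat.pos_of_dvd_of_pos hlcm (by omega))
    exact o_mul_dvd hn hng
  · rw [hgt]
    have h2 : Nat.Coprime n (n - 1) := by
      rw [Nat.coprime_self_sub_right hn1.le]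
      exact Nat.coprime_one_right n
    exact Nat.Coprime.coprime_dvd_left hgn (Nat.Coprime.coprime_dvd_right hlcm h2)

end PspSplit
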